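import Pool.Agent.Q120.FA.Stm3

set_option autoImplicit false

/-! Project FA (helper120), job SL: from the integral to the sum over the Farey fractions. -/

namespace Pool.Agent.Q190.FA

open MeasureTheory Filter Topology Set
open Pool.Agent.Q120.FA

/-- the trigonometric-like sum -/
noncomputable def ff (N : ℕ) (c : ℕ → ℝ) (k t : ℝ) : ℝ := (∑ d ∈ Finset.Icc 1 N, c d * ps ((d : ℝ) * t)) + k

/-- an affine function -/
theorem aff {p : ℝ} (hp : 1 ≤ p) {l : ℝ} (hl : 0 < l) (A m : ℝ) :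
    l / 4 * (|A| / 2) ^ p ≤ ∫ s in (0 : ℝ)..l, |A + m * s| ^ p := by
  have hp0 : 0 ≤ p := by linarith
  set g : ℝ → ℝ := fun s => |A + m * s| ^ p with hg
  have hgc : Continuous g := by
    apply Continuous.rpow_const
    · fun_prop
    · intro s
      right
      exact hp0
  have hg0 : ∀ s, 0 ≤ g s := fun s => Real.rpow_nonneg (abs_nonneg _) _
  have hpt : ∀ s : ℝ, (|A| / 2) ^ p ≤ g s + g (3 * s) := by
    intro s
    have h1 : |A| ≤ 3 / 2 * |A + m * s| + 1 / 2 * |A + m * (3 * s)| := by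
      have h2 : A = 3 / 2 * (A + m * s) + -(1 / 2 * (A + m * (3 * s))) := by ring
      calc |A| = |3 / 2 * (A + m * s) + -(1 / 2 * (A + m * (3 * s)))| := by rw [← h2]
        _ ≤ |3 / 2 * (A + m * s)| + |-(1 / 2 * (A + m * (3 * s)))| := abs_add_le _ _
        _ = _ := by
          rw [abs_neg, abs_mul, abs_mul]
          norm_num
    rcases le_total (|A| / 2) |A + m * s| with h3 | h3
    · have h4 : (|A| / 2) ^ p ≤ g s := Real.rpow_le_rpow (by positivity) h3 hp0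
      have h5 := hg0 (3 * s)
      linarith
    · have h6 : |A| / 2 ≤ |A + m * (3 * s)| := by linarith
      have h4 : (|A| / 2) ^ p ≤ g (3 * s) := Real.rpow_le_rpow (by positivity) h6 hp0
      have h5 := hg0 s
      linarith
  have hl3 : (0 : ℝ) ≤ l / 3 := by positivity
  have h7 : ∫ _s in (0 : ℝ)..(l / 3), (|A| / 2) ^ p ≤ ∫ s in (0 : ℝ)..(l / 3), (g s + g (3 * s)) := by
    apply intervalIntegral.integral_mono_on hl3
    · exact intervalIntegrable_const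
    · exact (hgc.add (hgc.comp (continuous_const.mul continuous_id))).intervalIntegrable _ _
    · intro s _
      exact hpt s
  have h8 : ∫ s in (0 : ℝ)..(l / 3), (g s + g (3 * s)) =
      (∫ s in (0 : ℝ)..(l / 3), g s) + ∫ s in (0 : ℝ)..(l / 3), g (3 * s) :=
    intervalIntegral.integral_add (hgc.intervalIntegrable _ _)
      ((hgc.comp (continuous_const.mul continuous_id)).intervalIntegrable _ _)
  have h9 : ∫ s in (0 : ℝ)..(l / 3), g (3 * s) = 1 / 3 * ∫ s in (0 : ℝ)..l, g s := by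
    rw [intervalIntegral.integral_comp_mul_left g (by norm_num : (3 : ℝ) ≠ 0)]
    rw [mul_zero, show 3 * (l / 3) = l by ring, smul_eq_mul]
    norm_num
  have h10 : ∫ s in (0 : ℝ)..(l / 3), g s ≤ ∫ s in (0 : ℝ)..l, g s := by
    apply intervalIntegral.integral_mono_interval le_rfl hl3 (by linarith)
    · exact Filter.Eventually.of_forall fun s => hg0 s
    · exact hgc.intervalIntegrable _ _
  rw [intervalIntegral.integral_const, smul_eq_mul, sub_zero, h8, h9] at h7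
  show l / 4 * (|A| / 2) ^ p ≤ ∫ s in (0 : ℝ)..l, g s
  linarith

/-- `f` is affine right of a fraction -/
theorem affine {N : ℕ} (c : ℕ → ℝ) (k : ℝ) {a n : ℕ} (hn : 1 ≤ n) (hnN : n ≤ N) {s : ℝ} (hs : 0 ≤ s)
    (hs1 : s < 1 / (N : ℝ) ^ 2) :
    ff N c k ((a : ℝ) / n + s) = ff N c k ((a : ℝ) / n) + (∑ d ∈ Finset.Icc 1 N, c d * d) * s := by
  unfold ff
  have hN1 : 1 ≤ N := hn.trans hnN
  have hNr : (1 : ℝ) ≤ N := by exact_mod_cast hN1
  have hnr : (1 : ℝ) ≤ n := by exact_mod_cast hn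
  have hnNr : (n : ℝ) ≤ N := by exact_mod_cast hnN
  have h1 : ∀ d ∈ Finset.Icc 1 N, ps ((d : ℝ) * ((a : ℝ) / n + s)) = ps ((d : ℝ) * ((a : ℝ) / n)) + d * s := by
    intro d hd
    have hd2 : (d : ℝ) ≤ N := by exact_mod_cast (Finset.mem_Icc.1 hd).2
    have hd0 : (0 : ℝ) ≤ d := Nat.cast_nonneg d
    unfold ps
    have hX : (d : ℝ) * ((a : ℝ) / n) = ((d * a : ℕ) : ℝ) / ((n : ℕ) : ℝ) := by
      push_cast
      ring
    have hfr : Int.fract ((d : ℝ) * ((a : ℝ) / n)) = (((d * a) % n : ℕ) : ℝ) / n := by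
      rw [hX]
      exact Int.fract_div_natCast_eq_div_natCast_mod
    have hmod : (d * a) % n + 1 ≤ n := Nat.mod_lt _ (by omega)
    have hmodr : (((d * a) % n : ℕ) : ℝ) + 1 ≤ n := by exact_mod_cast hmod
    have hf0 : 0 ≤ Int.fract ((d : ℝ) * ((a : ℝ) / n)) := Int.fract_nonneg _
    have hds : (d : ℝ) * s < 1 / n := by
      have h2 : (d : ℝ) * s ≤ N * s := mul_le_mul_of_nonneg_right hd2 hs
      have h3 : (N : ℝ) * s < N * (1 / (N : ℝ) ^ 2) := by
        apply mul_lt_mul_of_pos_left hs1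
        linarith
      have h4 : (N : ℝ) * (1 / (N : ℝ) ^ 2) = 1 / N := by
        field_simp
      have h5 : 1 / (N : ℝ) ≤ 1 / n := one_div_le_one_div_of_le (by linarith) hnNr
      linarith
    have hlt : Int.fract ((d : ℝ) * ((a : ℝ) / n)) + d * s < 1 := by
      rw [hfr]
      have h6 : (((d * a) % n : ℕ) : ℝ) / n ≤ ((n : ℝ) - 1) / n := by
        apply div_le_div_of_nonneg_right _ (by linarith)
        linarith
      have h7 : ((n : ℝ) - 1) / n + 1 / n = 1 := by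
        field_simp
        ring
      linarith
    have h8 : Int.fract ((d : ℝ) * ((a : ℝ) / n + s)) = Int.fract ((d : ℝ) * ((a : ℝ) / n)) + d * s := by
      rw [Int.fract_eq_iff]
      refine ⟨by positivity, hlt, ⌊(d : ℝ) * ((a : ℝ) / n)⌋, ?_⟩
      have := Int.self_sub_floor ((d : ℝ) * ((a : ℝ) / n))
      rw [← this]
      ring
    rw [h8]
    ring
  rw [Finset.sum_congr rfl (fun d hd => by rw [h1 d hd]), Finset.sum_mul, add_right_comm,
    ← Finset.sum_add_distrib]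
  congr 1
  refine Finset.sum_congr rfl fun d _ => ?_
  ring

/-- the left end points -/
def ee (q : ℕ × ℕ) : ℕ × ℕ := if q.2 = 1 then (0, 1) else q

theorem mem_FN {N : ℕ} {q : ℕ × ℕ} : q ∈ FN N ↔
    (1 ≤ q.1 ∧ q.1 ≤ N) ∧ (1 ≤ q.2 ∧ q.2 ≤ N) ∧ q.1 ≤ q.2 ∧ q.1.Coprime q.2 := by
  unfold FN
  rw [Finset.mem_filter, Finset.mem_product, Finset.mem_Icc, Finset.mem_Icc]
  tauto

theorem ee_spec {N : ℕ} {q : ℕ × ℕ} (hq : q ∈ FN N) :
    1 ≤ (ee q).2 ∧ (ee q).2 ≤ N ∧ (ee q).1 < (ee q).2 ∧ (ee q).1.Coprime (ee q).2 := by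
  rw [mem_FN] at hq
  obtain ⟨⟨h1, h2⟩, ⟨h3, h4⟩, h5, h6⟩ := hq
  unfold ee
  split_ifs with h
  · exact ⟨le_rfl, by show 1 ≤ N; omega, by show 0 < 1; omega, Nat.coprime_one_right 0⟩
  · refine ⟨h3, h4, ?_, h6⟩
    rcases Nat.lt_or_ge q.1 q.2 with h7 | h7
    · exact h7
    · exfalso
      have h8 : q.1 = q.2 := le_antisymm h5 h7
      rw [h8, Nat.coprime_self] at h6
      exact h h6

theorem ee_inj {N : ℕ} {q q' : ℕ × ℕ} (hq : q ∈ FN N) (hq' : q' ∈ FN N) (h : ee q = ee q') : q = q' := by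
  rw [mem_FN] at hq hq'
  obtain ⟨⟨h1, h2⟩, ⟨h3, h4⟩, h5, h6⟩ := hq
  obtain ⟨⟨h1', h2'⟩, ⟨h3', h4'⟩, h5', h6'⟩ := hq'
  unfold ee at h
  split_ifs at h with ha hb hb
  · apply Prod.ext <;> omega
  · exfalso
    have := congrArg Prod.fst h
    simp only at this
    omega
  · exfalso
    have := congrArg Prod.fst h
    simp only at this
    omega
  · exact h

theorem coprime_eq {a n b m : ℕ} (h1 : a.Coprime n) (h2 : b.Coprime m) (hn : 1 ≤ n)
    (h : a * m = b * n) : a = b ∧ n = m := by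
  have h3 : n ∣ m := by
    have : n ∣ a * m := ⟨b, by rw [h]; ring⟩
    exact (Nat.Coprime.dvd_mul_left h1.symm).1 this
  have h4 : m ∣ n := by
    have : m ∣ b * n := ⟨a, by rw [← h]; ring⟩
    exact (Nat.Coprime.dvd_mul_left h2.symm).1 this
  have h5 := Nat.dvd_antisymm h3 h4
  subst h5
  exact ⟨Nat.eq_of_mul_eq_mul_right (by omega) h, rfl⟩

/-- two fractions are far apart -/
theorem sep {N a n b m : ℕ} (hn : 1 ≤ n) (hnN : n ≤ N) (hm : 1 ≤ m) (hmN : m ≤ N)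
    (h : a * m < b * n) : (a : ℝ) / n + 1 / (N : ℝ) ^ 2 ≤ (b : ℝ) / m := by
  have hn0 : (0 : ℝ) < n := by exact_mod_cast hn
  have hm0 : (0 : ℝ) < m := by exact_mod_cast hm
  have hnN' : (n : ℝ) ≤ N := by exact_mod_cast hnN
  have hmN' : (m : ℝ) ≤ N := by exact_mod_cast hmN
  have h1 : (a : ℝ) * m + 1 ≤ b * n := by exact_mod_cast h
  have h2 : 1 / (N : ℝ) ^ 2 ≤ 1 / ((n : ℝ) * m) := by
    apply one_div_le_one_div_of_le (by positivity)
    nlinarith
  have h3 : (a : ℝ) / n + 1 / ((n : ℝ) * m) ≤ (b : ℝ) / m := by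
    have h4 : (a : ℝ) / n + 1 / ((n : ℝ) * m) = ((a : ℝ) * m + 1) / (n * m) := by
      field_simp
    rw [h4, div_le_div_iff₀ (by positivity) hm0]
    calc ((a : ℝ) * m + 1) * m ≤ (b * n) * m := mul_le_mul_of_nonneg_right h1 hm0.le
      _ = (b : ℝ) * (n * m) := by ring
  linarith

theorem ff_meas (N : ℕ) (c : ℕ → ℝ) (k : ℝ) : Measurable (ff N c k) := by
  unfold ff ps
  fun_prop

theorem ff_bdd (N : ℕ) (c : ℕ → ℝ) (k : ℝ) (t : ℝ) : |ff N c k t| ≤ (∑ d ∈ Finset.Icc 1 N, |c d|) + |k| := by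
  unfold ff
  refine (abs_add_le _ _).trans ?_
  apply add_le_add_left
  refine (Finset.abs_sum_le_sum_abs _ _).trans ?_
  apply Finset.sum_le_sum
  intro d _
  rw [abs_mul]
  apply mul_le_of_le_one_right (abs_nonneg _)
  unfold ps
  rw [abs_le]
  have h1 := Int.fract_nonneg ((d : ℝ) * t)
  have h2 := Int.fract_lt_one ((d : ℝ) * t)
  constructor <;> linarith

theorem ff_int {p : ℝ} (hp : 1 ≤ p) (N : ℕ) (c : ℕ → ℝ) (k a b : ℝ) :
    IntegrableOn (fun t => |ff N c k t| ^ p) (Ioc a b) volume := by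
  apply Measure.integrableOn_of_bounded (M := ((∑ d ∈ Finset.Icc 1 N, |c d|) + |k|) ^ p)
  · simp
  · exact ((ff_meas N c k).abs.pow_const p).aestronglyMeasurable
  · refine Filter.Eventually.of_forall fun t => ?_
    rw [Real.norm_eq_abs, abs_of_nonneg (Real.rpow_nonneg (abs_nonneg _) _)]
    exact Real.rpow_le_rpow (abs_nonneg _) (ff_bdd N c k t) (by linarith)

/-- the value at `r` and the value at the left end point -/
theorem ff_ee {N : ℕ} (c : ℕ → ℝ) (k : ℝ) {q : ℕ × ℕ} (hq : q ∈ FN N) :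
    ff N c k (fp q) = ff N c k (((ee q).1 : ℝ) / ((ee q).2 : ℝ)) := by
  unfold ee
  split_ifs with h
  · have h1 : q.1 = 1 := by
      rw [mem_FN] at hq
      omega
    have h2 : fp q = 1 := by
      unfold fp
      rw [h, h1]
      simp
    rw [h2]
    unfold ff
    congr 1
    refine Finset.sum_congr rfl fun d _ => ?_
    congr 1
    unfold ps
    simp
  · rfl

/-- the interval of one fraction -/
theorem one_int {p : ℝ} (hp : 1 ≤ p) {N : ℕ} (c : ℕ → ℝ) (k : ℝ) {q : ℕ × ℕ} (hq : q ∈ FN N) :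
    |ff N c k (fp q)| ^ p ≤ 4 * 2 ^ p * (N : ℝ) ^ 2 *
      ∫ t in Ioc (((ee q).1 : ℝ) / ((ee q).2 : ℝ)) (((ee q).1 : ℝ) / ((ee q).2 : ℝ) + 1 / (N : ℝ) ^ 2),
        |ff N c k t| ^ p := by
  obtain ⟨h1, h2, h3, h4⟩ := ee_spec hq
  have hN1 : 1 ≤ N := h1.trans h2
  have hNr : (0 : ℝ) < N := by exact_mod_cast hN1
  set r : ℝ := ((ee q).1 : ℝ) / ((ee q).2 : ℝ) with hr
  have hl : 0 < 1 / (N : ℝ) ^ 2 := by positivity
  rw [ff_ee c k hq, ← hr]
  have h5 := aff hp hl (ff N c k r) (∑ d ∈ Finset.Icc 1 N, c d * d)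
  have h6 : ∫ s in (0 : ℝ)..(1 / (N : ℝ) ^ 2), |ff N c k r + (∑ d ∈ Finset.Icc 1 N, c d * d) * s| ^ p =
      ∫ t in Ioc r (r + 1 / (N : ℝ) ^ 2), |ff N c k t| ^ p := by
    rw [← intervalIntegral.integral_of_le (by linarith)]
    have h7 : ∫ t in r..(r + 1 / (N : ℝ) ^ 2), |ff N c k t| ^ p =
        ∫ s in (0 : ℝ)..(1 / (N : ℝ) ^ 2), |ff N c k (r + s)| ^ p := by
      rw [intervalIntegral.integral_comp_add_left (fun t => |ff N c k t| ^ p) r, add_zero]
    rw [h7]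
    apply intervalIntegral.integral_congr_ae
    have h8 : ∀ᵐ s : ℝ ∂volume, s ≠ 1 / (N : ℝ) ^ 2 := by
      rw [ae_iff]
      simp
    filter_upwards [h8] with s hs hs1
    rw [uIoc_of_le hl.le] at hs1
    rw [hr, affine c k h1 h2 hs1.1.le (lt_of_le_of_ne hs1.2 hs)]
  rw [← h6]
  have h9 : (|ff N c k r| / 2) ^ p = |ff N c k r| ^ p / 2 ^ p := Real.div_rpow (abs_nonneg _) (by norm_num) p
  rw [h9] at h5
  have h10 : (0 : ℝ) < 2 ^ p := by positivity
  have h11 : 4 * 2 ^ p * (N : ℝ) ^ 2 * (1 / (N : ℝ) ^ 2 / 4 * (|ff N c k r| ^ p / 2 ^ p)) = |ff N c k r| ^ p := by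
    field_simp
  rw [← h11]
  exact mul_le_mul_of_nonneg_left h5 (by positivity)

/-- **SL** -/
theorem t_SL : J_SL := by
  intro p hp N hN c k
  have hNr : (1 : ℝ) ≤ N := by exact_mod_cast hN
  set I : ℕ × ℕ → Set ℝ := fun q =>
    Ioc (((ee q).1 : ℝ) / ((ee q).2 : ℝ)) (((ee q).1 : ℝ) / ((ee q).2 : ℝ) + 1 / (N : ℝ) ^ 2) with hI
  have hsum : ∑ q ∈ FN N, ∫ t in I q, |ff N c k t| ^ p = ∫ t in ⋃ q ∈ FN N, I q, |ff N c k t| ^ p := by
    rw [integral_biUnion_finset]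
    · intro q _
      exact measurableSet_Ioc
    · intro q hq q' hq' hne
      obtain ⟨h1, h2, h3, h4⟩ := ee_spec hq
      obtain ⟨h1', h2', h3', h4'⟩ := ee_spec hq'
      have h5 : (ee q).1 * (ee q').2 ≠ (ee q').1 * (ee q).2 := by
        intro h6
        obtain ⟨h7, h8⟩ := coprime_eq h4 h4' h1 h6
        exact hne (ee_inj hq hq' (Prod.ext h7 h8))
      rcases lt_or_gt_of_ne h5 with h6 | h6
      · have h7 := sep h1 h2 h1' h2' h6
        exact Set.disjoint_left.2 fun t ht ht' => by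
          have a1 : t ≤ ((ee q).1 : ℝ) / ((ee q).2 : ℝ) + 1 / (N : ℝ) ^ 2 := ht.2
          have a2 : ((ee q').1 : ℝ) / ((ee q').2 : ℝ) < t := ht'.1
          linarith
      · have h7 := sep h1' h2' h1 h2 h6
        exact Set.disjoint_left.2 fun t ht ht' => by
          have a1 : t ≤ ((ee q').1 : ℝ) / ((ee q').2 : ℝ) + 1 / (N : ℝ) ^ 2 := ht'.2
          have a2 : ((ee q).1 : ℝ) / ((ee q).2 : ℝ) < t := ht.1
          linarith
    · intro q _
      exact ff_int hp N c k _ _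
  have hsub : (⋃ q ∈ FN N, I q) ⊆ Ioc (0 : ℝ) 1 := by
    intro t ht
    rw [mem_iUnion₂] at ht
    obtain ⟨q, hq, ht1, ht2⟩ := ht
    obtain ⟨h1, h2, h3, h4⟩ := ee_spec hq
    constructor
    · have : (0 : ℝ) ≤ ((ee q).1 : ℝ) / ((ee q).2 : ℝ) := by positivity
      exact lt_of_le_of_lt this ht1
    · refine ht2.trans ?_
      have h5 := sep (N := N) (a := (ee q).1) (n := (ee q).2) (b := 1) (m := 1) h1 h2 le_rfl hN (by omega)
      simpa using h5
  have hle : ∫ t in ⋃ q ∈ FN N, I q, |ff N c k t| ^ p ≤ ∫ t in Ioc (0 : ℝ) 1, |ff N c k t| ^ p := by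
    apply setIntegral_mono_set (ff_int hp N c k 0 1)
    · exact Filter.Eventually.of_forall fun t => Real.rpow_nonneg (abs_nonneg _) _
    · exact hsub.eventuallyLE
  show ∑ q ∈ FN N, |ff N c k (fp q)| ^ p ≤
    4 * 2 ^ p * (N : ℝ) ^ 2 * ∫ t in (0 : ℝ)..1, |ff N c k t| ^ p
  rw [intervalIntegral.integral_of_le zero_le_one]
  calc ∑ q ∈ FN N, |ff N c k (fp q)| ^ p ≤ ∑ q ∈ FN N, 4 * 2 ^ p * (N : ℝ) ^ 2 *
        ∫ t in I q, |ff N c k t| ^ p := Finset.sum_le_sum fun q hq => one_int hp c k hq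
    _ = 4 * 2 ^ p * (N : ℝ) ^ 2 * ∫ t in ⋃ q ∈ FN N, I q, |ff N c k t| ^ p := by
        rw [← Finset.mul_sum, hsum]
    _ ≤ _ := mul_le_mul_of_nonneg_left hle (by positivity)

end Pool.Agent.Q190.FA
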